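import Pool.Agent.Helper46.TU.ERa
import Pool.Agent.Helper24.PP.MA

/-!
# ER (project TU of helper88): the error term

Adapted from `Pool/Agent/Helper53/CG/ER.lean` (helper53).
-/

set_option autoImplicit false

open Finset Filter Topology

open scoped Classical

namespace Pool.Agent.Helper46.TU

open Pool.Agent.Helper88.CG (tw pw th ic DS sg CN)
open Pool.Agent.Helper88.TU
open Pool.Agent.Helper88.PP (pr Rg om Sf SS QQ XX)
open Pool.Agent.Helper88.RR (nz gg)
open Pool.Agent.Helper88.GM (NI XI)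
open Pool.Agent.Helper64.RR (mem_pr sum_pr_le fact_est)
open Pool.Agent.Helper74.PP (sum_pr_sq one_sub_sum_le_prod om_lower M_lower ap_exists)
open Pool.Agent.Helper53.CG (mem_SS sum_pow_le_exp H_le hh hh_nonneg mem_DS prod_ite_nz S_le Cop
  fiber_le noncop_le worst card_small cop_prod w_split w_hh inv_D group_le tot_rough tw_bd pw_bd
  ic_bd CN_bd CN_zero NI_card)

theorem thrK (c B0 : ℝ) (hc : 0 < c) (hB : 1 ≤ B0) : ∃ E0 : ℕ, ∀ E : ℕ, E0 ≤ E → ∀ T : ℝ,
    1 ≤ T → T ≤ B0 * (E : ℝ) ^ 5 → ∀ K : ℕ, K ^ 3 ≤ E →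
    4 * (Real.exp 1 * T ^ K) ≤ Real.exp (c / 2 * E) := by
  obtain ⟨n, hn⟩ := exists_nat_ge ((2 * (19 + Real.log B0) / c) ^ 3)
  refine ⟨max n 1, fun E hE T hT1 hT K hK => ?_⟩
  have hnE : (n : ℝ) ≤ E := by exact_mod_cast (le_max_left _ _).trans hE
  have h1E : (1 : ℝ) ≤ E := by exact_mod_cast (le_max_right _ _).trans hE
  have hE0 : (0 : ℝ) < E := by linarith
  have hlB : 0 ≤ Real.log B0 := Real.log_nonneg hB
  set t : ℝ := (E : ℝ) ^ ((1 : ℝ) / 3) with ht
  have ht3 : t ^ 3 = E := by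
    rw [ht, ← Real.rpow_natCast, ← Real.rpow_mul (by linarith)]
    norm_num
  have ht0 : 0 ≤ t := by positivity
  have ht1 : 1 ≤ t := by
    rw [ht]
    exact Real.one_le_rpow h1E (by norm_num)
  have hkt : (K : ℝ) ≤ t := by
    apply le_of_pow_le_pow_left₀ (n := 3) (by norm_num) ht0
    rw [ht3]
    exact_mod_cast hK
  have hMt : 2 * (19 + Real.log B0) / c ≤ t := by
    apply le_of_pow_le_pow_left₀ (n := 3) (by norm_num) ht0
    rw [ht3]
    exact hn.trans hnE
  have hMt' : 2 * (19 + Real.log B0) ≤ t * c := by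
    rwa [div_le_iff₀ hc] at hMt
  have hT0 : 0 < T := by linarith only [hT1]
  have hlogT : Real.log T ≤ Real.log B0 + 15 * t := by
    have h1 := Real.log_le_log hT0 hT
    rw [Real.log_mul (by linarith only [hB]) (by positivity), Real.log_pow] at h1
    have h2 : Real.log (E : ℝ) = 3 * Real.log t := by
      rw [← ht3, Real.log_pow]
      norm_num
    have h3 : Real.log t ≤ t := by
      have := Real.log_le_sub_one_of_pos (show 0 < t by linarith only [ht1])
      linarith only [this]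
    push_cast at h1
    linarith only [h1, h2, h3]
  have hlogT0 : 0 ≤ Real.log T := Real.log_nonneg hT1
  have h4 : (4 : ℝ) ≤ Real.exp 3 := by
    have := Real.add_one_le_exp (3 : ℝ)
    linarith only [this]
  calc 4 * (Real.exp 1 * T ^ K) ≤ Real.exp 3 * (Real.exp 1 * T ^ K) :=
        mul_le_mul_of_nonneg_right h4 (by positivity)
    _ = Real.exp (3 + (1 + K * Real.log T)) := by
        rw [Real.exp_add, Real.exp_add, Real.exp_nat_mul, Real.exp_log hT0]
    _ ≤ Real.exp (c / 2 * E) := by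
        apply Real.exp_le_exp.2
        have h5 : (K : ℝ) * Real.log T ≤ t * (Real.log B0 + 15 * t) :=
          mul_le_mul hkt hlogT hlogT0 ht0
        have h6 : 4 + t * (Real.log B0 + 15 * t) ≤ (19 + Real.log B0) * t ^ 2 := by
          have a1 : 1 ≤ t ^ 2 := one_le_pow₀ ht1
          have a2 : t ≤ t ^ 2 := le_self_pow₀ ht1 (by norm_num)
          have a3 := mul_le_mul_of_nonneg_left a2 hlB
          linarith only [a1, a3]
        have h7 : (19 + Real.log B0) * t ^ 2 ≤ c / 2 * t ^ 3 := by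
          have h8 := mul_le_mul_of_nonneg_right hMt' (show 0 ≤ t ^ 2 / 2 by positivity)
          calc (19 + Real.log B0) * t ^ 2 = 2 * (19 + Real.log B0) * (t ^ 2 / 2) := by ring
            _ ≤ t * c * (t ^ 2 / 2) := h8
            _ = _ := by ring
        rw [← ht3]
        linarith only [h5, h6, h7]

/-- the final estimate -/
theorem fin_num (E z : ℕ) (c c1 l X xQ S S' W G y2 o : ℝ) (hE : 2000 ≤ E)
    (hcc : c ≤ c1 / 4) (hc5 : c ≤ 1 / 100) (hc0 : 0 < c) (hl : (E : ℝ) ≤ l) (hz : Real.exp l = z)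
    (hX0 : 0 ≤ X) (hxQ0 : 0 ≤ xQ) (hxQ : xQ ≤ 2 * X)
    (hS0 : 0 ≤ S) (hS : S ≤ Real.exp (1 / 100 * l))
    (hS' : 4 * S' ≤ Real.exp (c1 / 2 * E)) 
    (hW : W ≤ Real.exp (1 / 100 * l))
    (hG : G ≤ Real.exp (1 / 100 * l)) (hG0 : 0 ≤ G)
    (hy : y2 ≤ Real.exp (1 / 100 * l)) (hEy : (E : ℝ) ≤ y2)
    (ho : Real.exp (-(1 / 100 * l)) ≤ o) :
    W * (1 / √(z : ℝ) * xQ * G) + 2 * Real.exp (-(c1 * E)) * X * o * S'
      + 2 * X * (2 * E / z) * S
      + 2 * X * (y2 * (9 / z) * S) ≤ Real.exp (-(c * E)) * (o * X) := by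
  have hE' : (2000 : ℝ) ≤ E := by exact_mod_cast hE
  set B := Real.exp (1 / 100 * l) with hB
  have hB0 : 0 < B := Real.exp_pos _
  have ho0 : 0 < o := lt_of_lt_of_le (Real.exp_pos _) ho
  have hzpos : (0 : ℝ) < z := by rw [← hz]; exact Real.exp_pos _
  have hsq : √(z : ℝ) = Real.exp (l / 2) := by
    rw [← hz, show l = l / 2 + l / 2 by ring, Real.exp_add, Real.sqrt_mul_self (Real.exp_pos _).le]
    ring_nf
  set q := Real.exp (-(l / 2) + 1 / 50 * l) with hq
  have hq0 : 0 < q := Real.exp_pos _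
  have hBB : B * B = Real.exp (1 / 50 * l) := by
    rw [hB, ← Real.exp_add]
    congr 1
    ring
  have hzi : 1 / (z : ℝ) = Real.exp (-l) := by
    rw [← hz, Real.exp_neg, one_div]
  have hzB : 1 / (z : ℝ) * (B * B) ≤ q := by
    rw [hzi, hBB, ← Real.exp_add]
    apply Real.exp_le_exp.2
    linarith only [hc5, hc0, hl, hE']
  have t1 : W * (1 / √(z : ℝ) * xQ * G) ≤ 2 * X * q := by
    calc W * (1 / √(z : ℝ) * xQ * G) ≤ B * (1 / √(z : ℝ) * (2 * X) * B) := by gcongr
      _ = 2 * X * (1 / √(z : ℝ) * (B * B)) := by ring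
      _ = 2 * X * q := by
          rw [hsq, hBB, one_div, ← Real.exp_neg, ← Real.exp_add]
  have t3 : 2 * X * (2 * E / z) * S ≤ 4 * X * q := by
    calc 2 * X * (2 * E / z) * S ≤ 2 * X * (2 * B / z) * B := by
          have : (E : ℝ) ≤ B := hEy.trans hy
          gcongr
      _ = 4 * X * (1 / z * (B * B)) := by ring
      _ ≤ _ := mul_le_mul_of_nonneg_left hzB (by positivity)
  have t4 : 2 * X * (y2 * (9 / z) * S) ≤ 18 * X * q := by
    calc 2 * X * (y2 * (9 / z) * S) ≤ 2 * X * (B * (9 / z) * B) := by gcongr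
      _ = 18 * X * (1 / z * (B * B)) := by ring
      _ ≤ _ := mul_le_mul_of_nonneg_left hzB (by positivity)
  have hcE : c * E ≤ 1 / 100 * l := by
    calc c * E ≤ 1 / 100 * E := mul_le_mul_of_nonneg_right hc5 (by linarith only [hc5, hc0, hE'])
      _ ≤ 1 / 100 * l := by linarith only [hl]
  have t5 : 24 * X * q ≤ 1 / 2 * (Real.exp (-(c * E)) * (o * X)) := by
    have h48 : (48 : ℝ) ≤ Real.exp 47 := by
      have := Real.add_one_le_exp (47 : ℝ)
      linarith only [this]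
    have h1 : 48 * q ≤ Real.exp (-(c * E)) * Real.exp (-(1 / 100 * l)) := by
      calc 48 * q ≤ Real.exp 47 * q := mul_le_mul_of_nonneg_right h48 hq0.le
        _ = Real.exp (47 + (-(l / 2) + 1 / 50 * l)) := (Real.exp_add _ _).symm
        _ ≤ Real.exp (-(c * E) + -(1 / 100 * l)) := by
            apply Real.exp_le_exp.2
            linarith only [hc5, hc0, hl, hE', hcE]
        _ = _ := Real.exp_add _ _
    have h2 : 48 * q ≤ Real.exp (-(c * E)) * o :=
      h1.trans (mul_le_mul_of_nonneg_left ho (Real.exp_pos _).le)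
    have h3 := mul_le_mul_of_nonneg_right h2 hX0
    linarith only [h3]
  have t2 : 2 * Real.exp (-(c1 * E)) * X * o * S' ≤ 1 / 2 * (Real.exp (-(c * E)) * (o * X)) := by
    have h1 : Real.exp (-(c1 * E)) * (4 * S') ≤ Real.exp (-(c * E)) := by
      calc Real.exp (-(c1 * E)) * (4 * S') ≤ Real.exp (-(c1 * E)) * Real.exp (c1 / 2 * E) :=
            mul_le_mul_of_nonneg_left hS' (Real.exp_pos _).le
        _ = Real.exp (-(c1 * E) + c1 / 2 * E) := (Real.exp_add _ _).symm
        _ ≤ _ := by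
            apply Real.exp_le_exp.2
            have g1 := mul_le_mul_of_nonneg_right hcc (show (0 : ℝ) ≤ E by linarith only [hc5, hc0, hE'])
            have g2 : 0 ≤ c * E := mul_nonneg hc0.le (by linarith only [hc5, hc0, hE'])
            linarith only [g1, g2]
    have h2 := mul_le_mul_of_nonneg_right h1 (show 0 ≤ o * X by positivity)
    calc 2 * Real.exp (-(c1 * E)) * X * o * S' = 1 / 2 * (Real.exp (-(c1 * E)) * (4 * S') * (o * X)) := by
          ring
      _ ≤ _ := mul_le_mul_of_nonneg_left h2 (by norm_num)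
  linarith only [t1, t3, t4, t5, t2]

theorem er : StmtEB → StmtTE → StmtBM → StmtER := by
  intro h1 h2 h3 C hC
  obtain ⟨c1, hc1, E1, hEB⟩ := h1
  obtain ⟨E2, hTE⟩ := h2
  obtain ⟨E3, hBM⟩ := h3
  obtain ⟨c2, hc2, hom⟩ := om_lower
  obtain ⟨E4, hsz⟩ := size
  obtain ⟨cA, CA, hcA, hCA, hMA⟩ := Pool.Agent.Helper24.PP.ma
  have ha3 : (3 : ℝ) ≤ 3 * C ^ 2 := by nlinarith only [hC]
  have ha1 : (1 : ℝ) ≤ 3 * C ^ 2 := by linarith
  have ha0 : (0 : ℝ) < 3 * C ^ 2 := by linarith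
  have hla : 0 ≤ Real.log (3 * C ^ 2) := Real.log_nonneg ha1
  set M : ℝ := 2 + Real.log (3 * C ^ 2) + 3 * |Real.log c2| with hM
  have habs := abs_nonneg (Real.log c2)
  have hle_abs := le_abs_self (Real.log c2)
  have hM0 : 0 ≤ M := by positivity
  obtain ⟨E5, hpow⟩ := size_pow (M + 5) (1 / 100) (by norm_num)
  obtain ⟨E6, hggs⟩ := size_gg (1 / 100) (by norm_num)
  have hB1 : 1 ≤ 3 * C ^ 2 * CA ^ 3 + 1 := by
    have : 0 ≤ 3 * C ^ 2 * CA ^ 3 := by positivity
    linarith only [this]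
  obtain ⟨E7, hthrK⟩ := thrK c1 (3 * C ^ 2 * CA ^ 3 + 1) hc1 hB1
  set c0 : ℝ := min (c1 / 4) (1 / 100) with hc0def
  have hc0 : 0 < c0 := lt_min (by positivity) (by norm_num)
  have hcc : c0 ≤ c1 / 4 := min_le_left _ _
  have hc5 : c0 ≤ 1 / 100 := min_le_right _ _
  refine ⟨c0, hc0, max (max (max E1 E2) (max E3 E4)) (max (max E5 E6) (max E7 2000)),
    fun E z x y hE hSu b hb K hK P hP hPo j hj hjP => ?_⟩
  have hE1 : E1 ≤ E := by omega
  have hE2 : E2 ≤ E := by omega
  have hE3 : E3 ≤ E := by omega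
  have hE4 : E4 ≤ E := by omega
  have hE5 : E5 ≤ E := by omega
  have hE6 : E6 ≤ E := by omega
  have hE7 : E7 ≤ E := by omega
  have h2000 : 2000 ≤ E := by omega
  obtain ⟨hl, hX, z3, z4, z5, z6, z7, z8, hyz, z10, hzx, z12, hw1, hQl⟩ := hsz E z x y hE4 hSu
  obtain ⟨hz1, hx1, hx2, hy1, hy2⟩ := id hSu
  have hp := hpow E z x y hE5 hSu
  obtain ⟨hoe, hggk⟩ := hggs E z x y hE6 hSu
  have hE' : (2000 : ℝ) ≤ E := by exact_mod_cast h2000
  set l := Real.log (z : ℝ) with hldef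
  set L := Real.log (x : ℝ) with hLdef
  set w := Real.log L with hwdef
  set Q := QQ x with hQdef
  set Dm := z ^ (2 * (E / 16)) with hDmdef
  set X := XI (x / 32) x Q with hXdef
  set σ := ∑ p ∈ pr y z, 1 / (p : ℝ) with hσdef
  have hw0 : 0 ≤ w := by linarith only [hc0, hc5, hw1]
  have hQ0 : 0 < Q := primorial_pos _
  have hQ0' : (0 : ℝ) < Q := by exact_mod_cast hQ0
  have hz0 : (0 : ℝ) < z := lt_of_lt_of_le (Real.exp_pos _) hz1
  have hexpl : Real.exp l = z := Real.exp_log hz0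
  have hx0' : 0 < x := by omega
  have hxr0 : (0 : ℝ) < x := by exact_mod_cast hx0'
  have hexpL : Real.exp L = x := Real.exp_log hxr0
  have hzE : (E : ℝ) + 1 ≤ z := (Real.add_one_le_exp (E : ℝ)).trans hz1
  have hzE' : E + 1 ≤ z := by exact_mod_cast hzE
  have hEl : 2000 * l ≤ (E : ℝ) * l := mul_le_mul_of_nonneg_right hE' (by linarith only [hc0, hc5, hE', hl])
  have hEE : (E : ℝ) * E ≤ E * l := mul_le_mul_of_nonneg_left hl (by linarith only [hc0, hc5, hE'])
  have hEE2 : 2000 * (E : ℝ) ≤ E * E := mul_le_mul_of_nonneg_right hE' (by linarith only [hc0, hc5, hE'])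
  have hL1 : 1 < L := by linarith only [hc0, hc5, hE', hl, hX, hEl]
  have hwexp : Real.exp w = L := Real.exp_log (by linarith only [hc0, hc5, hE', hl, hX, hEl])
  have hx2' : 2 ≤ x := by omega
  have hy0 : 1 ≤ y := by omega
  have hyw : (y : ℝ) ≤ Real.exp (2 * w) := by
    refine hy2.trans (le_of_eq ?_)
    rw [show Real.exp (2 * w) = Real.exp w ^ 2 by rw [← Real.exp_nat_mul]; norm_num, hwexp]
  have hQle : (Q : ℝ) ≤ Real.exp (7 / 100 * L) := by
    rw [← Real.log_le_iff_le_exp hQ0']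
    exact hQl
  -- the sizes
  have hzpow : ∀ n : ℕ, ((z ^ n : ℕ) : ℝ) = Real.exp (n * l) := by
    intro n
    rw [Real.exp_nat_mul, hexpl]
    push_cast
    rfl
  have hDmle : (Dm : ℝ) ≤ Real.exp (1 / 8 * (E * l)) := by
    rw [hDmdef, hzpow]
    apply Real.exp_le_exp.2
    have h3 : ((2 * (E / 16) : ℕ) : ℝ) ≤ (E : ℝ) / 8 := by
      have h4 : 8 * (2 * (E / 16)) ≤ E := by omega
      have h5 : (8 : ℝ) * ((2 * (E / 16) : ℕ) : ℝ) ≤ E := by exact_mod_cast h4
      linarith only [h5]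
    have := mul_le_mul_of_nonneg_right h3 (show 0 ≤ l by linarith only [hc0, hc5, hE', hl])
    linarith only [this]
  have hzr : ((z ^ (E / 32) : ℕ) : ℝ) ≤ Real.exp (1 / 32 * (E * l)) := by
    rw [hzpow]
    apply Real.exp_le_exp.2
    have h3 : ((E / 32 : ℕ) : ℝ) ≤ (E : ℝ) / 32 := Nat.cast_div_le
    have := mul_le_mul_of_nonneg_right h3 (show 0 ≤ l by linarith only [hc0, hc5, hE', hl])
    linarith only [this]
  have hDmx : Dm ≤ x := by
    have h3 : (Dm : ℝ) ≤ x := by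
      rw [← hexpL]
      exact hDmle.trans (Real.exp_le_exp.2 (by linarith only [hc0, hc5, hE', hl, hX, hEl]))
    exact_mod_cast h3
  have hDm2 : 2 ≤ Dm := by
    rw [hDmdef]
    exact le_trans (by omega) (Nat.le_self_pow (by omega) z)
  -- the sum of the reciprocals of the primes
  have hsig : ∀ u v : ℕ, 2 ≤ v → v ≤ x → ∑ p ∈ pr u v, 1 / (p : ℝ) ≤ Real.log c2 + w := by
    intro u v hv hvx
    have h3 := (hom u v hv).1
    have hlv : 0 < Real.log v := Real.log_pos (by exact_mod_cast hv)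
    have hlvL : Real.log v ≤ L := Real.log_le_log (by exact_mod_cast (by omega : 0 < v))
      (by exact_mod_cast hvx)
    have h4 : Real.exp (-(Real.log c2 + w)) ≤ om u v := by
      rw [Real.exp_neg, Real.exp_add, Real.exp_log hc2, hwexp]
      refine le_trans ?_ h3
      rw [← one_div]
      apply one_div_le_one_div_of_le (by positivity)
      exact mul_le_mul_of_nonneg_left hlvL hc2.le
    have h5 := Real.exp_le_exp.1 (h4.trans (sum_pr_le u v))
    linarith only [h5]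
  have hσ : σ ≤ Real.log c2 + w := hsig y z (by omega) hzx
  have hσ0 : 0 ≤ σ := Finset.sum_nonneg fun p _ => by positivity
  have hK0 : (0 : ℝ) ≤ K := Nat.cast_nonneg _
  have hK1 : (K + 1) ^ 2 ≤ E := by
    rcases le_or_gt K 9 with h | h
    · have : (K + 1) ^ 2 ≤ (9 + 1) ^ 2 := Nat.pow_le_pow_left (by omega) 2
      omega
    · calc (K + 1) ^ 2 ≤ (2 * K) ^ 2 := Nat.pow_le_pow_left (by omega) 2
        _ = 4 * K ^ 2 := by ring
        _ ≤ K * K ^ 2 := Nat.mul_le_mul_right _ (by omega)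
        _ = K ^ 3 := by ring
        _ ≤ E := hK
  have hK9 : (3 * K) ^ 2 ≤ E := by
    rcases le_or_gt K 9 with h | h
    · have : (3 * K) ^ 2 ≤ (3 * 9) ^ 2 := Nat.pow_le_pow_left (by omega) 2
      omega
    · calc (3 * K) ^ 2 = 9 * K ^ 2 := by ring
        _ ≤ K * K ^ 2 := Nat.mul_le_mul_right _ h.le
        _ = K ^ 3 := by ring
        _ ≤ E := hK
  have hKsq : (K : ℝ) ≤ √(E : ℝ) := by
    apply Real.le_sqrt_of_sq_le
    have : K ^ 2 ≤ E := (Nat.pow_le_pow_left (Nat.le_succ K) 2).trans hK1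
    exact_mod_cast this
  have hthr : ∀ k : ℝ, 0 ≤ k → k ≤ K → (k + 1) * (M + 5 * w) ≤ 1 / 100 * l := by
    intro k hk0 hkK
    refine le_trans ?_ hp
    have e1 : M + 5 * w ≤ (M + 5) * (1 + w) := by
      have e2 := mul_nonneg hM0 hw0
      have e3 : (M + 5) * (1 + w) = M + 5 * w + M * w + 5 := by ring
      rw [e3]
      linarith only [hc0, hc5, e2]
    calc (k + 1) * (M + 5 * w) ≤ (1 + √(E : ℝ)) * ((M + 5) * (1 + w)) := by
          apply mul_le_mul (by linarith only [hKsq, hkK]) e1 (by positivity) (by positivity)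
      _ = _ := by ring
  have hthrK2 := hthr K hK0 le_rfl
  have hthr0 := hthr 0 le_rfl hK0
  have hKσ : K * σ ≤ 1 / 100 * l := by
    refine le_trans ?_ hthrK2
    calc K * σ ≤ K * (Real.log c2 + w) := mul_le_mul_of_nonneg_left hσ hK0
      _ ≤ ((K : ℝ) + 1) * (M + 5 * w) := by
          apply mul_le_mul (by linarith only [hc0, hc5]) (by rw [hM]; linarith only [hla, habs, hle_abs, hc0, hc5, hw1]) _ (by positivity)
          linarith only [hσ, hσ0]
  -- the sum over all labels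
  have hcardP : Fintype.card P ≤ y := by
    rw [Fintype.card_coe]
    exact (card_le_card hP).trans (by simp)
  set S := ∑ d ∈ (DS z Dm K : Finset (P → ℕ)), ∏ i, hh (3 * C ^ 2) (d i) with hSdef
  have hS0 : 0 ≤ S := Finset.sum_nonneg fun d _ => Finset.prod_nonneg fun i _ => hh_nonneg ha0.le _
  have hSle : S ≤ Real.exp (1 / 100 * l) := by
    set σ' := ∑ p ∈ pr z Dm, 1 / (p : ℝ) with hσ'
    have hσ'le : σ' ≤ Real.log c2 + w := hsig z Dm hDm2 hDmx
    have hσ'0 : 0 ≤ σ' := Finset.sum_nonneg fun p _ => by positivity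
    have h3 : ∑ m ∈ SS z (Dm + 1), (3 * C ^ 2) * 3 ^ m.primeFactors.card / (m : ℝ) ≤
        (3 * C ^ 2) * Real.exp (3 * σ') := by
      refine le_trans (le_of_eq ?_) (mul_le_mul_of_nonneg_left (H_le z Dm) ha0.le)
      rw [Finset.mul_sum]
      exact Finset.sum_congr rfl fun m _ => by ring
    have h4 : 1 ≤ (3 * C ^ 2) * Real.exp (3 * σ') := by
      have h5 : 1 ≤ Real.exp (3 * σ') := Real.one_le_exp (by positivity)
      calc (1 : ℝ) = 1 * 1 := (one_mul 1).symm
        _ ≤ _ := mul_le_mul ha1 h5 (by norm_num) ha0.le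
    have h5 := S_le (ι := P) z Dm K y (3 * C ^ 2) ((3 * C ^ 2) * Real.exp (3 * σ')) ha0.le hcardP hy0
      h4 h3
    refine h5.trans ?_
    have h6 : (y : ℝ) * ((3 * C ^ 2) * Real.exp (3 * σ')) ≤
        Real.exp (2 * w + (Real.log (3 * C ^ 2) + 3 * (Real.log c2 + w))) := by
      rw [Real.exp_add, Real.exp_add, Real.exp_log ha0]
      gcongr
    calc Real.exp 1 * ((y : ℝ) * ((3 * C ^ 2) * Real.exp (3 * σ'))) ^ K
        ≤ Real.exp 1 * (Real.exp (2 * w + (Real.log (3 * C ^ 2) + 3 * (Real.log c2 + w)))) ^ K := by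
          gcongr
      _ = Real.exp (1 + K * (2 * w + (Real.log (3 * C ^ 2) + 3 * (Real.log c2 + w)))) := by
          rw [Real.exp_add 1, Real.exp_nat_mul]
      _ ≤ Real.exp (1 / 100 * l) := by
          apply Real.exp_le_exp.2
          refine le_trans ?_ hthrK2
          have h7 : (K : ℝ) * (2 * w + (Real.log (3 * C ^ 2) + 3 * (Real.log c2 + w))) ≤
              K * (M + 5 * w) := by
            apply mul_le_mul_of_nonneg_left _ hK0
            rw [hM]
            linarith only [hle_abs, hc0, hc5]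
          have h8 : 1 ≤ M + 5 * w := by
            rw [hM]
            linarith only [hla, habs, hc0, hc5, hw1]
          calc _ ≤ (M + 5 * w) + K * (M + 5 * w) := add_le_add h8 h7
            _ = _ := by ring
  have hWle : ((Fintype.card P + 1 : ℕ) : ℝ) ^ K * (3 * C ^ 2) ^ K ≤ Real.exp (1 / 100 * l) := by
    have h3 : ((Fintype.card P + 1 : ℕ) : ℝ) * (3 * C ^ 2) ≤
        Real.exp (1 + 2 * w + Real.log (3 * C ^ 2)) := by
      rw [Real.exp_add, Real.exp_log ha0]
      apply mul_le_mul_of_nonneg_right _ ha0.le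
      have h4 : ((Fintype.card P + 1 : ℕ) : ℝ) ≤ y + 1 := by
        exact_mod_cast Nat.succ_le_succ hcardP
      have h5 : (1 : ℝ) ≤ Real.exp (2 * w) := Real.one_le_exp (by positivity)
      have h6 : (2 : ℝ) ≤ Real.exp 1 := by
        have := Real.add_one_le_exp (1 : ℝ)
        linarith only [this]
      calc ((Fintype.card P + 1 : ℕ) : ℝ) ≤ y + 1 := h4
        _ ≤ Real.exp (2 * w) + Real.exp (2 * w) := add_le_add hyw h5
        _ = 2 * Real.exp (2 * w) := by ring
        _ ≤ Real.exp 1 * Real.exp (2 * w) := mul_le_mul_of_nonneg_right h6 (Real.exp_pos _).le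
        _ = _ := (Real.exp_add _ _).symm
    rw [← mul_pow]
    calc (((Fintype.card P + 1 : ℕ) : ℝ) * (3 * C ^ 2)) ^ K
        ≤ (Real.exp (1 + 2 * w + Real.log (3 * C ^ 2))) ^ K :=
          pow_le_pow_left₀ (by positivity) h3 K
      _ = Real.exp (K * (1 + 2 * w + Real.log (3 * C ^ 2))) := (Real.exp_nat_mul _ _).symm
      _ ≤ Real.exp (1 / 100 * l) := by
          apply Real.exp_le_exp.2
          refine le_trans ?_ hthrK2
          apply mul_le_mul (by linarith only [hc0, hc5]) _ (by positivity) (by linarith only [hc0, hc5])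
          rw [hM]
          linarith only [habs, hc0, hc5, hw1]
  -- the sum over the labels with the factor `om`
  set o := om y z with hodef
  have ho0 : 0 ≤ o := (Real.exp_pos _).le.trans hoe
  set S' := ∑ d ∈ (DS z Dm K : Finset (P → ℕ)), ∏ i, hh (3 * C ^ 2 * o) (d i) with hS'def
  have hS'0 : 0 ≤ S' := Finset.sum_nonneg fun d _ => Finset.prod_nonneg fun i _ =>
    hh_nonneg (by positivity) _
  have hE0 : (0 : ℝ) < E := by linarith only [hc0, hc5, hE']
  have hS'le : 4 * S' ≤ Real.exp (c1 / 2 * E) := by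
    have g1 : SS z (Dm + 1) ⊆ SS z (z ^ (2 * (E / 16) + 1)) := by
      intro m hm
      obtain ⟨m1, m2, m3⟩ := mem_SS.1 hm
      refine mem_SS.2 ⟨m1, lt_of_lt_of_le m2 ?_, m3⟩
      rw [hDmdef, pow_succ]
      have : 1 ≤ z ^ (2 * (E / 16)) := Nat.one_le_pow _ _ (by omega)
      calc z ^ (2 * (E / 16)) + 1 ≤ z ^ (2 * (E / 16)) * 2 := by omega
        _ ≤ z ^ (2 * (E / 16)) * z := Nat.mul_le_mul_left _ (by omega)
    have g2 := (hMA z (2 * (E / 16) + 1) (by omega) (by omega)).2.2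
    have g3 : ((2 * (E / 16) + 1 : ℕ) : ℝ) ≤ E := by
      have : 2 * (E / 16) + 1 ≤ E := by omega
      exact_mod_cast this
    have g4 : ∑ m ∈ SS z (Dm + 1), (3 * C ^ 2 * o) * 3 ^ m.primeFactors.card / (m : ℝ) ≤
        (3 * C ^ 2 * o) * (CA * E) ^ 3 := by
      calc ∑ m ∈ SS z (Dm + 1), (3 * C ^ 2 * o) * 3 ^ m.primeFactors.card / (m : ℝ)
          = (3 * C ^ 2 * o) * ∑ m ∈ SS z (Dm + 1), (3 : ℝ) ^ m.primeFactors.card / (m : ℝ) := by
            rw [Finset.mul_sum]
            exact Finset.sum_congr rfl fun m _ => by ring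
        _ ≤ (3 * C ^ 2 * o) * ∑ m ∈ SS z (z ^ (2 * (E / 16) + 1)),
              (3 : ℝ) ^ m.primeFactors.card / (m : ℝ) := by
            apply mul_le_mul_of_nonneg_left _ (by positivity)
            exact Finset.sum_le_sum_of_subset_of_nonneg g1 fun m _ _ => by positivity
        _ ≤ (3 * C ^ 2 * o) * (CA * ((2 * (E / 16) + 1 : ℕ) : ℝ)) ^ 3 :=
            mul_le_mul_of_nonneg_left g2 (by positivity)
        _ ≤ _ := by gcongr
    have g5 : (Fintype.card P : ℝ) * ((3 * C ^ 2 * o) * (CA * E) ^ 3) ≤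
        (E : ℝ) ^ 2 * (3 * C ^ 2 * (CA * E) ^ 3) + 1 := by
      rw [Fintype.card_coe]
      have : (P.card : ℝ) * ((3 * C ^ 2 * o) * (CA * E) ^ 3) =
          (P.card * o) * (3 * C ^ 2 * (CA * E) ^ 3) := by ring
      rw [this]
      have h5 : (P.card * o) * (3 * C ^ 2 * (CA * E) ^ 3) ≤
          (E : ℝ) ^ 2 * (3 * C ^ 2 * (CA * E) ^ 3) :=
        mul_le_mul_of_nonneg_right hPo (by positivity)
      linarith only [hc0, hc5, h5]
    have g6 : 1 ≤ (E : ℝ) ^ 2 * (3 * C ^ 2 * (CA * E) ^ 3) + 1 := by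
      have : 0 ≤ (E : ℝ) ^ 2 * (3 * C ^ 2 * (CA * E) ^ 3) := by positivity
      linarith only [this]
    have g7 := S_le2 (ι := P) z Dm K (3 * C ^ 2 * o) ((3 * C ^ 2 * o) * (CA * E) ^ 3)
      ((E : ℝ) ^ 2 * (3 * C ^ 2 * (CA * E) ^ 3) + 1) (by positivity) g6 g5 g4
    have g8 : (E : ℝ) ^ 2 * (3 * C ^ 2 * (CA * E) ^ 3) + 1 ≤
        (3 * C ^ 2 * CA ^ 3 + 1) * (E : ℝ) ^ 5 := by
      have g0 : (1 : ℝ) ≤ (E : ℝ) ^ 5 := one_le_pow₀ (by linarith only [hc0, hc5, hE'])
      calc (E : ℝ) ^ 2 * (3 * C ^ 2 * (CA * E) ^ 3) + 1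
          ≤ (E : ℝ) ^ 2 * (3 * C ^ 2 * (CA * E) ^ 3) + (E : ℝ) ^ 5 := by linarith only [g0]
        _ = _ := by ring
    have g9 := hthrK E hE7 _ g6 g8 K hK
    linarith only [g7, g9]
  -- the number of integers
  have hxQ : (x : ℝ) / Q ≤ 2 * X := by
    rw [hXdef, XI, ← mul_div_assoc]
    apply div_le_div_of_nonneg_right _ hQ0'.le
    have h4 : x ≤ 2 * (x - x / 32) := by omega
    exact_mod_cast h4
  have hEl0 : 0 ≤ (E : ℝ) * l := mul_nonneg hE0.le (by linarith only [hc0, hc5, hE', hl])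
  have hX1 : 1 ≤ X := by
    have h4 : (1 : ℝ) ≤ (x : ℝ) / Q / 2 := by
      rw [le_div_iff₀ (by norm_num), le_div_iff₀ hQ0']
      calc 1 * 2 * (Q : ℝ) ≤ Real.exp 1 * Real.exp (7 / 100 * L) := by
            have := Real.add_one_le_exp (1 : ℝ)
            rw [one_mul]
            apply mul_le_mul (by linarith only [this]) hQle hQ0'.le (Real.exp_pos _).le
        _ = Real.exp (1 + 7 / 100 * L) := (Real.exp_add _ _).symm
        _ ≤ Real.exp L := Real.exp_le_exp.2 (by linarith only [hc0, hc5, hE', hl, hX, hEl])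
        _ = x := hexpL
    linarith only [hxQ, h4]
  have hX0 : 0 ≤ X := by linarith only [hc0, hc5, hX1]
  have hcard : ((NI (x / 32) x Q b).card : ℝ) ≤ 2 * X := by
    have := NI_card (x / 32) x Q b hb (Nat.div_le_self _ _)
    linarith only [hX1, this]
  have hsg : ∀ d : P → ℕ, 0 ≤ CN x y z j (NI (x / 32) x Q b) d ∧
      CN x y z j (NI (x / 32) x Q b) d ≤ 2 * X := fun d => by
    obtain ⟨h3, h4⟩ := CN_bd x y z j hx2' (NI (x / 32) x Q b) d
    exact ⟨h3, h4.trans hcard⟩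
  have hpQ : ∀ p : ℕ, p.Prime → p ∣ Q → p ≤ z := by
    intro p hp hpd
    have h3 := (Nat.Prime.dvd_primorial_iff hp).1 hpd
    have h4 : (⌊Real.log x / 20⌋₊ : ℝ) ≤ Real.log x / 20 := Nat.floor_le (by
      have : 0 ≤ L := by linarith only [hc0, hc5, hE', hl, hX, hEl]
      positivity)
    have h5 : (p : ℝ) ≤ (⌊Real.log x / 20⌋₊ : ℝ) := by exact_mod_cast h3
    have h6 : (p : ℝ) ≤ y := by
      have : L / 20 ≤ L := by linarith only [hc0, hc5, hE', hl, hX, hEl]
      linarith only [hc0, hc5, hE', hl, hy1, hX, hEl, h4, h5]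
    have h7 : p ≤ y := by exact_mod_cast h6
    omega
  obtain ⟨-, -, -, hAA, -⟩ := hBM E y z 0 hE3 hz1 z6 hyz (by omega)
  -- split
  rw [← Finset.sum_filter_add_sum_filter_not (DS z Dm K : Finset (P → ℕ)) (fun d => Cop d)]
  have hcop := cop_sum x y z K Dm E j (NI (x / 32) x Q b) P (3 * C ^ 2) X
    (1 / √(z : ℝ)) x (Real.exp (-(c1 * E))) o ha1 hX0 (by omega) (by omega) hDmdef hsg hxr0.le Q hQ0
    (Real.exp_pos _).le ho0
    (fun k hk => (hggk (k + 1)
      ((Nat.pow_le_pow_left (Nat.succ_le_succ hk) 2).trans hK1)).2.1)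
    (by
      intro d hd hcd
      obtain ⟨hm1, hm2, hm3⟩ := mem_DS.1 hd
      exact hEB E z x y hE1 hSu b hb j hj P hP hjP d
        (fun i => (hm1 i).imp_right fun h => h.2.2) (fun i i' h1 h2 h3 => hcd i i' h1 h2 h3) hm2
        ((Nat.pow_le_pow_left (Nat.succ_le_succ hm3) 2).trans hK1))
    (by
      intro A hA f hf
      have hAs : A ⊆ pr y z := mem_powerset.1 (mem_filter.1 hA).1
      have hprodA : ∏ p ∈ A, p ≤ z ^ (E / 32) := hAA A hA
      have hA0 : 0 < ∏ p ∈ A, p := Finset.prod_pos fun p hp => (mem_pr.1 (hAs hp)).2.2.pos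
      have key := hTE E z x y hE2 hSu (Q * ∏ p ∈ A, p) (3 * K) (Nat.mul_pos hQ0 hA0) ?_ hK9 ?_ f hf
      · refine key.trans (le_of_eq ?_)
        ring
      · intro p hp hpd
        rcases (Nat.Prime.dvd_mul hp).1 hpd with h | h
        · exact hpQ p hp h
        · obtain ⟨q, hq, h3⟩ := (Nat.Prime.prime hp).exists_mem_finset_dvd h
          have h4 := mem_pr.1 (hAs hq)
          have h5 := Nat.le_of_dvd h4.2.2.pos h3
          omega
      · have h3 : ((Q : ℝ) * ((z ^ (E / 32) : ℕ) : ℝ) * ((Dm : ℕ) : ℝ)) ^ 4 ≤ x := by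
          calc ((Q : ℝ) * ((z ^ (E / 32) : ℕ) : ℝ) * ((Dm : ℕ) : ℝ)) ^ 4
              ≤ (Real.exp (7 / 100 * L) * Real.exp (1 / 32 * (E * l)) *
                Real.exp (1 / 8 * (E * l))) ^ 4 := by gcongr
            _ = Real.exp (((4 : ℕ) : ℝ) * (7 / 100 * L + 1 / 32 * (E * l) + 1 / 8 * (E * l))) := by
                rw [Real.exp_nat_mul, Real.exp_add, Real.exp_add]
            _ ≤ Real.exp L := Real.exp_le_exp.2 (by push_cast; linarith only [hc0, hc5, hE', hl, hX, hEl])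
            _ = x := hexpL
        have h5 : (Q * z ^ (E / 32) * Dm) ^ 4 ≤ x := by exact_mod_cast h3
        refine le_trans (Nat.pow_le_pow_left ?_ 4) h5
        exact Nat.mul_le_mul_right _ (Nat.mul_le_mul_left _ hprodA)) (by positivity)
  have hnon : ∑ d ∈ (DS z Dm K : Finset (P → ℕ)).filter (fun d => ¬ Cop d),
      (∏ i, (if d i = 0 then 1 else 3 * C ^ 2 * 3 ^ (d i).primeFactors.card)) *
      |CN x y z j (NI (x / 32) x Q b) d - CN x y z j (NI (x / 32) x Q b) (fun i => sg (d i)) *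
          ∏ i, (if d i = 0 then 1 else 1 / (d i : ℝ))| ≤
      2 * X * ((y : ℝ) ^ 2 * (9 / z) * S) := by
    calc _ ≤ ∑ d ∈ (DS z Dm K : Finset (P → ℕ)).filter (fun d => ¬ Cop d),
          2 * X * ∏ i, hh (3 * C ^ 2) (d i) := by
          refine Finset.sum_le_sum fun d hd => ?_
          obtain ⟨hd1, hd2⟩ := mem_filter.1 hd
          obtain ⟨hm1, _, _⟩ := mem_DS.1 hd1
          rw [CN_zero x y z j hyz _ hP d (fun i => (hm1 i).imp_right fun h => h.2.2) hd2,
            inv_D, w_hh, zero_sub, abs_neg]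
          have h3 : (0 : ℝ) ≤ 1 / ((∏ i, max 1 (d i) : ℕ) : ℝ) := by positivity
          rw [abs_of_nonneg (mul_nonneg (hsg _).1 h3)]
          have h4 : 0 ≤ ∏ i, (if d i = 0 then (1 : ℝ) else
              3 * C ^ 2 * 3 ^ (d i).primeFactors.card) := Finset.prod_nonneg fun i _ => by
            split_ifs
            · norm_num
            · positivity
          have h5 := mul_le_mul_of_nonneg_right (hsg (fun i => sg (d i))).2 h3
          have h6 := mul_le_mul_of_nonneg_left h5 h4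
          refine h6.trans (le_of_eq ?_)
          ring
      _ = 2 * X * ∑ d ∈ (DS z Dm K : Finset (P → ℕ)).filter (fun d => ¬ Cop d),
          ∏ i, hh (3 * C ^ 2) (d i) := by rw [← Finset.mul_sum]
      _ ≤ _ := by
          apply mul_le_mul_of_nonneg_left _ (by positivity)
          exact noncop_le z Dm K y (3 * C ^ 2) ha0.le (by omega) hcardP
  have hyy : (y : ℝ) ^ 2 ≤ Real.exp (1 / 100 * l) := by
    calc (y : ℝ) ^ 2 ≤ (Real.exp (2 * w)) ^ 2 := pow_le_pow_left₀ (Nat.cast_nonneg _) hyw 2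
      _ = Real.exp (((2 : ℕ) : ℝ) * (2 * w)) := (Real.exp_nat_mul _ _).symm
      _ ≤ Real.exp (1 / 100 * l) := by
          apply Real.exp_le_exp.2
          refine le_trans ?_ hthr0
          push_cast
          linarith only [hla, habs, hc0, hc5, hw1]
  have hEy : (E : ℝ) ≤ (y : ℝ) ^ 2 := by
    have h3 : E ≤ y ^ 2 := (Nat.le_self_pow two_ne_zero E).trans
      (z6.trans (Nat.le_self_pow two_ne_zero y))
    exact_mod_cast h3
  have hfin := fin_num E z c0 c1 l X (x / Q) S S'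
    (((Fintype.card P + 1 : ℕ) : ℝ) ^ K * (3 * C ^ 2) ^ K)
    (Real.exp (K * σ)) ((y : ℝ) ^ 2) o
    h2000 hcc hc5 hc0 hl hexpl hX0 (by positivity) hxQ hS0 hSle hS'le hWle
    (Real.exp_le_exp.2 hKσ) (Real.exp_pos _).le hyy hEy hoe
  exact le_trans (add_le_add hcop hnon) hfin

end Pool.Agent.Helper46.TU
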