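import Pool.Agent.Helper53.CG.ERc
import Pool.Agent.Helper88.TU.Size

/-!
# ER (project TU of helper88), part A: the sum over the labels

Adapted from `Pool/Agent/Helper53/CG/ER.lean` (helper53).
-/

set_option autoImplicit false

open Finset Filter Topology

open scoped Classical

namespace Pool.Agent.Helper46.TU

open Pool.Agent.Helper88.CG (tw pw th ic DS sg CN)
open Pool.Agent.Helper88.TU
open Pool.Agent.Helper88.PP (pr Rg om Sf SS QQ XX)
open Pool.Agent.Helper88.RR (nz gg)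
open Pool.Agent.Helper88.GM (NI XI)
open Pool.Agent.Helper64.RR (mem_pr sum_pr_le fact_est)
open Pool.Agent.Helper74.PP (sum_pr_sq one_sub_sum_le_prod om_lower M_lower ap_exists)
open Pool.Agent.Helper53.CG (mem_SS sum_pow_le_exp H_le hh hh_nonneg mem_DS prod_ite_nz S_le Cop
  fiber_le noncop_le worst card_small cop_prod w_split w_hh inv_D group_le tot_rough tw_bd pw_bd
  ic_bd CN_bd CN_zero NI_card)

section
variable {ι : Type} [Fintype ι] [DecidableEq ι]

/-- as `Pool.Agent.Helper53.CG.S_le`, with the number of the points and the sum over the labels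
together -/
theorem S_le2 (z D K : ℕ) (a H T : ℝ) (ha : 0 ≤ a) (hT1 : 1 ≤ T)
    (hT : (Fintype.card ι : ℝ) * H ≤ T)
    (hH : ∑ m ∈ SS z (D + 1), a * 3 ^ m.primeFactors.card / (m : ℝ) ≤ H) :
    ∑ d ∈ (DS z D K : Finset (ι → ℕ)), ∏ i, hh a (d i) ≤ Real.exp 1 * T ^ K := by
  have hT0 : 0 < T := by linarith
  set t : ℝ := 1 / T with ht
  have ht0 : 0 < t := by positivity
  have ht1 : t ≤ 1 := by
    rw [ht, div_le_one hT0]
    exact hT1
  have h1 : ∀ d ∈ (DS z D K : Finset (ι → ℕ)), ∏ i, hh a (d i) ≤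
      T ^ K * ∏ i, ((if d i = 0 then 1 else t) * hh a (d i)) := by
    intro d hd
    obtain ⟨_, _, h3⟩ := mem_DS.1 hd
    rw [Finset.prod_mul_distrib, prod_ite_nz, ← mul_assoc]
    have h4 : 0 ≤ ∏ i, hh a (d i) := Finset.prod_nonneg fun i _ => hh_nonneg ha _
    have h5 : T ^ K * t ^ K = 1 := by
      rw [← mul_pow, ht, mul_one_div_cancel hT0.ne', one_pow]
    have h6 : 1 ≤ T ^ K * t ^ nz d := by
      rw [← h5]
      exact mul_le_mul_of_nonneg_left (pow_le_pow_of_le_one ht0.le ht1 h3) (by positivity)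
    calc ∏ i, hh a (d i) = 1 * ∏ i, hh a (d i) := (one_mul _).symm
      _ ≤ _ := mul_le_mul_of_nonneg_right h6 h4
  refine (Finset.sum_le_sum h1).trans ?_
  rw [← Finset.mul_sum, mul_comm]
  refine mul_le_mul_of_nonneg_right ?_ (by positivity)
  have h2 : (DS z D K : Finset (ι → ℕ)) ⊆ Fintype.piFinset (fun _ : ι => insert 0 (SS z (D + 1))) :=
    filter_subset _ _
  refine (Finset.sum_le_sum_of_subset_of_nonneg h2 fun d _ _ =>
    Finset.prod_nonneg fun i _ => mul_nonneg (by split_ifs <;> linarith) (hh_nonneg ha _)).trans ?_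
  rw [← Finset.prod_univ_sum (fun _ : ι => insert 0 (SS z (D + 1)))
    (fun _ m => (if m = 0 then 1 else t) * hh a m)]
  have h3 : ∑ m ∈ insert 0 (SS z (D + 1)), (if m = 0 then 1 else t) * hh a m ≤ 1 + t * H := by
    rw [Finset.sum_insert (fun h => by have := (mem_SS.1 h).1; omega)]
    have h4 : ∑ m ∈ SS z (D + 1), (if m = 0 then 1 else t) * hh a m =
        t * ∑ m ∈ SS z (D + 1), a * 3 ^ m.primeFactors.card / (m : ℝ) := by
      rw [Finset.mul_sum]
      refine Finset.sum_congr rfl fun m hm => ?_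
      have h5 : m ≠ 0 := by
        have := (mem_SS.1 hm).1
        omega
      rw [if_neg h5, hh, if_neg h5]
    rw [h4, hh, if_pos rfl, if_pos rfl, one_mul]
    have h6 : t * ∑ m ∈ SS z (D + 1), a * 3 ^ m.primeFactors.card / (m : ℝ) ≤ t * H :=
      mul_le_mul_of_nonneg_left hH ht0.le
    linarith
  have h30 : 0 ≤ ∑ m ∈ insert 0 (SS z (D + 1)), (if m = 0 then 1 else t) * hh a m :=
    Finset.sum_nonneg fun m _ => mul_nonneg (by split_ifs <;> linarith) (hh_nonneg ha _)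
  have hH0 : 0 ≤ H := le_trans (Finset.sum_nonneg fun m _ => by positivity) hH
  rw [Finset.prod_const, Finset.card_univ]
  calc (∑ m ∈ insert 0 (SS z (D + 1)), (if m = 0 then 1 else t) * hh a m) ^ Fintype.card ι
      ≤ (1 + t * H) ^ Fintype.card ι := pow_le_pow_left₀ h30 h3 _
    _ ≤ (Real.exp (t * H)) ^ Fintype.card ι := pow_le_pow_left₀ (by positivity) (by
        have := Real.add_one_le_exp (t * H)
        linarith) _
    _ = Real.exp (t * (Fintype.card ι * H)) := by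
        rw [← Real.exp_nat_mul]
        congr 1
        ring
    _ ≤ Real.exp 1 := by
        apply Real.exp_le_exp.2
        calc t * (Fintype.card ι * H) ≤ t * T := mul_le_mul_of_nonneg_left hT ht0.le
          _ = 1 := by rw [ht, one_div_mul_cancel hT0.ne']

theorem hh_om (a o : ℝ) (d : ι → ℕ) :
    ∏ i, hh (a * o) (d i) = o ^ nz d * ∏ i, hh a (d i) := by
  rw [← prod_ite_nz, ← Finset.prod_mul_distrib]
  refine Finset.prod_congr rfl fun i _ => ?_
  unfold hh
  split_ifs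
  · ring
  · ring

end

/-- the difference for the modulus `k D` -/
noncomputable def TT (x k D c : ℕ) : ℝ := |th x (k * D) c - th x k c / (Nat.totient D : ℝ)|

/-- the sum over the coprime labels -/
theorem cop_sum (x y z K Dm E j : ℕ) (N : Finset ℕ) (P : Finset ℕ) (a X c xx e0 o : ℝ)
    (ha : 1 ≤ a) (hX0 : 0 ≤ X) (hz : 2 * (2 * (E / 16)) ≤ z) (hz2 : 2 ≤ z) (hDm : Dm = z ^ (2 * (E / 16)))
    (hsg : ∀ d : P → ℕ, 0 ≤ CN x y z j N d ∧ CN x y z j N d ≤ 2 * X)
    (hxx : 0 ≤ xx) (Q : ℕ) (hQ : 0 < Q) (he0 : 0 ≤ e0) (ho : 0 ≤ o)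
    (hgg : ∀ k ≤ K, gg y z (k + 1) ≤ o ^ (k + 1))
    (hEB : ∀ d ∈ (DS z Dm K : Finset (P → ℕ)), Cop d → ∃ f : Finset ℕ → ℕ,
      (∀ A ∈ AA E y z, Nat.Coprime (f A) (Q * (∏ p ∈ A, p) * ∏ i, max 1 (d i))) ∧
      |CN x y z j N d - CN x y z j N (fun i => sg (d i)) /
          (Nat.totient (∏ i, max 1 (d i)) : ℝ)|
      ≤ ∑ A ∈ AA E y z, (nz d : ℝ) ^ A.card *
          |th x (Q * (∏ p ∈ A, p) * ∏ i, max 1 (d i)) (f A)
            - th x (Q * ∏ p ∈ A, p) (f A) / (Nat.totient (∏ i, max 1 (d i)) : ℝ)|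
        + e0 * (X * gg y z (nz d + 1) / (Nat.totient (∏ i, max 1 (d i)) : ℝ)))
    (hTE : ∀ A ∈ AA E y z, ∀ f : ℕ → ℕ,
      (∀ D ∈ SS z (Dm + 1), Nat.Coprime (f D) (Q * (∏ p ∈ A, p) * D)) →
      ∑ D ∈ SS z (Dm + 1), ((3 * K : ℕ) : ℝ) ^ D.primeFactors.card *
        |th x (Q * (∏ p ∈ A, p) * D) (f D) - th x (Q * ∏ p ∈ A, p) (f D) / (Nat.totient D : ℝ)|
      ≤ c * (xx / ((Q * ∏ p ∈ A, p : ℕ) : ℝ))) (hc : 0 ≤ c) :
    ∑ d ∈ (DS z Dm K : Finset (P → ℕ)).filter (fun d => Cop d),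
      (∏ i, (if d i = 0 then 1 else a * 3 ^ (d i).primeFactors.card)) *
      |CN x y z j N d - CN x y z j N (fun i => sg (d i)) *
          ∏ i, (if d i = 0 then 1 else 1 / (d i : ℝ))| ≤
    ((Fintype.card P + 1 : ℕ) : ℝ) ^ K * a ^ K *
        (c * (xx / Q) * Real.exp (K * ∑ p ∈ pr y z, 1 / (p : ℝ)))
      + 2 * e0 * X * o * (∑ d ∈ (DS z Dm K : Finset (P → ℕ)), ∏ i, hh (a * o) (d i))
      + 2 * X * (2 * E / z) * (∑ d ∈ (DS z Dm K : Finset (P → ℕ)), ∏ i, hh a (d i)) := by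
  set DC := (DS z Dm K : Finset (P → ℕ)).filter (fun d => Cop d) with hDC
  set S := ∑ d ∈ (DS z Dm K : Finset (P → ℕ)), ∏ i, hh a (d i) with hS
  set S' := ∑ d ∈ (DS z Dm K : Finset (P → ℕ)), ∏ i, hh (a * o) (d i) with hS'
  set σ := ∑ p ∈ pr y z, 1 / (p : ℝ) with hσ
  set PA := AA E y z with hPA
  have hPAs : PA ⊆ (pr y z).powerset := filter_subset _ _
  set W : (P → ℕ) → ℝ := fun d => ∏ i, (if d i = 0 then 1 else a * 3 ^ (d i).primeFactors.card)
    with hW
  set DD : (P → ℕ) → ℕ := fun d => ∏ i, max 1 (d i) with hDD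
  have hσ0 : 0 ≤ σ := Finset.sum_nonneg fun p _ => by positivity
  have hW0 : ∀ d, 0 ≤ W d := fun d => Finset.prod_nonneg fun i _ => by
    split_ifs
    · norm_num
    · positivity
  have hDD1 : ∀ d, 1 ≤ DD d := fun d => Finset.one_le_prod' fun i _ => le_max_left _ _
  have hex : ∀ d : P → ℕ, ∃ f : Finset ℕ → ℕ, d ∈ DC →
      (∀ A ∈ PA, Nat.Coprime (f A) (Q * (∏ p ∈ A, p) * DD d)) ∧
      |CN x y z j N d - CN x y z j N (fun i => sg (d i)) *
          ∏ i, (if d i = 0 then 1 else 1 / (d i : ℝ))| ≤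
        ∑ A ∈ PA, (K : ℝ) ^ A.card * TT x (Q * ∏ p ∈ A, p) (DD d) (f A)
        + 2 * e0 * X * o * o ^ nz d * (1 / (DD d : ℝ))
        + 2 * X * (2 * E / z) * (1 / (DD d : ℝ)) := by
    intro d
    by_cases hd : d ∈ DC
    · obtain ⟨hd1, hd2⟩ := mem_filter.1 hd
      obtain ⟨f, hf1, hf2⟩ := hEB d hd1 hd2
      refine ⟨f, fun _ => ⟨hf1, ?_⟩⟩
      obtain ⟨hm1, hm2, hm3⟩ := mem_DS.1 hd1
      have hcp := (cop_prod hd1 hd2).1
      have hsf := (mem_SS.1 hcp).2.2
      have hDle : DD d ≤ Dm := hm2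
      have htot := tot_rough z (DD d) (2 * (E / 16)) hz hz2 hsf (hDm ▸ hDle)
      obtain ⟨ht1, ht2, ht3⟩ := htot
      have hD0 : (0 : ℝ) < DD d := by exact_mod_cast hDD1 d
      have hnz : (nz d : ℝ) ≤ K := by exact_mod_cast hm3
      have hnz0 : (0 : ℝ) ≤ nz d := Nat.cast_nonneg _
      have hz0 : (0 : ℝ) < z := by
        have : 0 < z := by omega
        exact_mod_cast this
      rw [inv_D]
      have htri : |CN x y z j N d - CN x y z j N (fun i => sg (d i)) * (1 / ((∏ i, max 1 (d i) : ℕ) : ℝ))|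
          ≤ |CN x y z j N d - CN x y z j N (fun i => sg (d i)) /
            (Nat.totient (∏ i, max 1 (d i)) : ℝ)| +
            CN x y z j N (fun i => sg (d i)) *
              (1 / (Nat.totient (DD d) : ℝ) - 1 / (DD d : ℝ)) := by
        have e0 : 0 ≤ CN x y z j N (fun i => sg (d i)) *
              (1 / (Nat.totient (DD d) : ℝ) - 1 / (DD d : ℝ)) :=
          mul_nonneg (hsg _).1 (by linarith)
        calc |CN x y z j N d - CN x y z j N (fun i => sg (d i)) * (1 / ((∏ i, max 1 (d i) : ℕ) : ℝ))|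
            = |(CN x y z j N d - CN x y z j N (fun i => sg (d i)) /
            (Nat.totient (∏ i, max 1 (d i)) : ℝ)) + CN x y z j N (fun i => sg (d i)) *
              (1 / (Nat.totient (DD d) : ℝ) - 1 / (DD d : ℝ))| := by
                congr 1
                simp only [hDD]
                ring
          _ ≤ _ := by
                refine (abs_add_le _ _).trans ?_
                rw [abs_of_nonneg e0]
      refine htri.trans ?_
      have e1 : CN x y z j N (fun i => sg (d i)) *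
              (1 / (Nat.totient (DD d) : ℝ) - 1 / (DD d : ℝ)) ≤
          2 * X * (2 * E / z) * (1 / (DD d : ℝ)) := by
        have e2 : ((2 * (E / 16) : ℕ) : ℝ) ≤ E := by
          have : 2 * (E / 16) ≤ E := by omega
          exact_mod_cast this
        calc CN x y z j N (fun i => sg (d i)) *
              (1 / (Nat.totient (DD d) : ℝ) - 1 / (DD d : ℝ))
            ≤ (2 * X) * (2 * ((2 * (E / 16) : ℕ) : ℝ) / z * (1 / (DD d : ℝ))) :=
              mul_le_mul (hsg _).2 ht1 (by linarith) (by linarith)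
          _ ≤ (2 * X) * (2 * E / z * (1 / (DD d : ℝ))) := by gcongr
          _ = _ := by ring
      have e3 : e0 * (X * gg y z (nz d + 1) / (Nat.totient (∏ i, max 1 (d i)) : ℝ)) ≤
          2 * e0 * X * o * o ^ nz d * (1 / (DD d : ℝ)) := by
        have e5 := hgg (nz d) hm3
        have e6 : (0 : ℝ) ≤ 1 / (Nat.totient (DD d) : ℝ) := by positivity
        calc e0 * (X * gg y z (nz d + 1) / (Nat.totient (∏ i, max 1 (d i)) : ℝ))
            = e0 * X * gg y z (nz d + 1) * (1 / (Nat.totient (DD d) : ℝ)) := by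
              simp only [hDD]
              ring
          _ ≤ e0 * X * o ^ (nz d + 1) * (1 / (Nat.totient (DD d) : ℝ)) := by gcongr
          _ ≤ e0 * X * o ^ (nz d + 1) * (2 * (1 / (DD d : ℝ))) := by gcongr
          _ = _ := by ring
      have e6 : ∑ A ∈ PA, (nz d : ℝ) ^ A.card *
          |th x (Q * (∏ p ∈ A, p) * ∏ i, max 1 (d i)) (f A)
            - th x (Q * ∏ p ∈ A, p) (f A) / (Nat.totient (∏ i, max 1 (d i)) : ℝ)| ≤
          ∑ A ∈ PA, (K : ℝ) ^ A.card * TT x (Q * ∏ p ∈ A, p) (DD d) (f A) := by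
        refine Finset.sum_le_sum fun A _ => ?_
        rw [TT]
        exact mul_le_mul_of_nonneg_right (pow_le_pow_left₀ hnz0 hnz _) (abs_nonneg _)
      linarith
    · exact ⟨fun _ => 1, fun h => absurd h hd⟩
  choose f hf using hex
  have hle : ∑ d ∈ DC, W d *
      |CN x y z j N d - CN x y z j N (fun i => sg (d i)) *
          ∏ i, (if d i = 0 then 1 else 1 / (d i : ℝ))| ≤
      ∑ d ∈ DC, (W d * ∑ A ∈ PA, (K : ℝ) ^ A.card * TT x (Q * ∏ p ∈ A, p) (DD d) (f d A)
        + (2 * e0 * X * o) * ∏ i, hh (a * o) (d i)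
        + (2 * X * (2 * E / z)) * ∏ i, hh a (d i)) := by
    refine Finset.sum_le_sum fun d hd => ?_
    refine (mul_le_mul_of_nonneg_left (hf d hd).2 (hW0 d)).trans (le_of_eq ?_)
    rw [hh_om, w_hh]
    simp only [hW, hDD]
    ring
  refine hle.trans ?_
  rw [Finset.sum_add_distrib, Finset.sum_add_distrib, ← Finset.mul_sum, ← Finset.mul_sum]
  have hSle : ∑ d ∈ DC, ∏ i, hh a (d i) ≤ S :=
    Finset.sum_le_sum_of_subset_of_nonneg (filter_subset _ _) fun d _ _ =>
      Finset.prod_nonneg fun i _ => hh_nonneg (by linarith) _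
  have hSle' : ∑ d ∈ DC, ∏ i, hh (a * o) (d i) ≤ S' :=
    Finset.sum_le_sum_of_subset_of_nonneg (filter_subset _ _) fun d _ _ =>
      Finset.prod_nonneg fun i _ => hh_nonneg (mul_nonneg (by linarith) ho) _
  have hpart2 := mul_le_mul_of_nonneg_left hSle (show 0 ≤ 2 * X * (2 * E / z) by positivity)
  have hpart3 := mul_le_mul_of_nonneg_left hSle' (show 0 ≤ 2 * e0 * X * o by positivity)
  have hpart1 : ∑ d ∈ DC, W d * ∑ A ∈ PA, (K : ℝ) ^ A.card * TT x (Q * ∏ p ∈ A, p) (DD d) (f d A) ≤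
      ((Fintype.card P + 1 : ℕ) : ℝ) ^ K * a ^ K * (c * (xx / Q) * Real.exp (K * σ)) := by
    have e1 : ∑ d ∈ DC, W d * ∑ A ∈ PA, (K : ℝ) ^ A.card * TT x (Q * ∏ p ∈ A, p) (DD d) (f d A) =
        ∑ A ∈ PA, (K : ℝ) ^ A.card *
          ∑ d ∈ DC, W d * TT x (Q * ∏ p ∈ A, p) (DD d) (f d A) := by
      simp only [Finset.mul_sum]
      rw [Finset.sum_comm]
      refine Finset.sum_congr rfl fun A _ => Finset.sum_congr rfl fun d _ => ?_
      ring
    rw [e1]
    have e2 : ∀ A ∈ PA, ∑ d ∈ DC, W d * TT x (Q * ∏ p ∈ A, p) (DD d) (f d A) ≤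
        ((Fintype.card P + 1 : ℕ) : ℝ) ^ K * a ^ K * (c * (xx / ((Q * ∏ p ∈ A, p : ℕ) : ℝ))) := by
      intro A hA
      obtain ⟨b, hb1, hb2⟩ := worst DC DD (fun d => f d A) (TT x (Q * ∏ p ∈ A, p))
        (fun D u => Nat.Coprime u (Q * (∏ p ∈ A, p) * D)) (fun D => Nat.coprime_one_left _)
        (fun d hd => (hf d hd).1 A hA)
      calc ∑ d ∈ DC, W d * TT x (Q * ∏ p ∈ A, p) (DD d) (f d A)
          ≤ ∑ d ∈ DC, W d * TT x (Q * ∏ p ∈ A, p) (DD d) (b (DD d)) :=
            Finset.sum_le_sum fun d hd => mul_le_mul_of_nonneg_left (hb2 d hd) (hW0 d)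
        _ ≤ ((Fintype.card P + 1 : ℕ) : ℝ) ^ K * a ^ K *
            ∑ D ∈ SS z (Dm + 1), ((3 * K : ℕ) : ℝ) ^ D.primeFactors.card *
              TT x (Q * ∏ p ∈ A, p) D (b D) :=
            group_le z Dm K a ha (fun D => TT x (Q * ∏ p ∈ A, p) D (b D)) (fun D => abs_nonneg _)
        _ ≤ _ := by
            apply mul_le_mul_of_nonneg_left _ (by positivity)
            exact hTE A hA b fun D _ => hb1 D
    have e3 : ∑ A ∈ PA, (K : ℝ) ^ A.card *
          ∑ d ∈ DC, W d * TT x (Q * ∏ p ∈ A, p) (DD d) (f d A) ≤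
        ∑ A ∈ PA, (((Fintype.card P + 1 : ℕ) : ℝ) ^ K * a ^ K * (c * (xx / Q))) *
          ∏ p ∈ A, ((K : ℝ) * (1 / (p : ℝ))) := by
      refine Finset.sum_le_sum fun A hA => ?_
      refine (mul_le_mul_of_nonneg_left (e2 A hA) (by positivity)).trans (le_of_eq ?_)
      rw [Finset.prod_mul_distrib, Finset.prod_const, Finset.prod_div_distrib,
        Finset.prod_const_one]
      push_cast
      have hQ' : (Q : ℝ) ≠ 0 := by exact_mod_cast hQ.ne'
      have hA0 : (∏ p ∈ A, (p : ℝ)) ≠ 0 := by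
        apply Finset.prod_ne_zero_iff.2
        intro p hp
        have := (mem_pr.1 (mem_powerset.1 (hPAs hA) hp)).2.2.pos
        exact_mod_cast this.ne'
      field_simp
    refine e3.trans ?_
    rw [← Finset.mul_sum]
    have e4 : ∑ A ∈ PA, ∏ p ∈ A, ((K : ℝ) * (1 / (p : ℝ))) ≤ Real.exp (K * σ) := by
      calc ∑ A ∈ PA, ∏ p ∈ A, ((K : ℝ) * (1 / (p : ℝ)))
          ≤ ∑ A ∈ (pr y z).powerset, ∏ p ∈ A, ((K : ℝ) * (1 / (p : ℝ))) :=
            Finset.sum_le_sum_of_subset_of_nonneg hPAs fun A _ _ =>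
              Finset.prod_nonneg fun p _ => by positivity
        _ ≤ Real.exp (∑ p ∈ pr y z, (K : ℝ) * (1 / (p : ℝ))) :=
            sum_pow_le_exp _ _ fun p _ => by positivity
        _ = _ := by rw [← Finset.mul_sum]
    calc ((Fintype.card P + 1 : ℕ) : ℝ) ^ K * a ^ K * (c * (xx / Q)) *
          ∑ A ∈ PA, ∏ p ∈ A, ((K : ℝ) * (1 / (p : ℝ)))
        ≤ ((Fintype.card P + 1 : ℕ) : ℝ) ^ K * a ^ K * (c * (xx / Q)) * Real.exp (K * σ) :=
          mul_le_mul_of_nonneg_left e4 (by positivity)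
      _ = _ := by ring
  linarith

end Pool.Agent.Helper46.TU
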