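import Pool.Agent.Helper88.TU.Size
import Pool.Agent.Helper88.CG.VP
import Pool.Agent.Helper33.RR.GT
import Pool.Agent.Helper59.RR.PW
import Pool.Agent.Helper74.PP.TL
import Pool.Agent.Helper85.RR.S1
import Pool.Agent.Helper49.GM.TS
import Pool.Agent.Helper24.PP.MA

/-!
# Two primes under the weight: upper bound (packet PB of project TU of helper88)

Adapted from `Pool/Agent/Helper72/CG/PB.lean` (helper72).
-/

set_option autoImplicit false

open Finset Filter Topology

open scoped Classical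

namespace Pool.Agent.Helper46.TU

open Pool.Agent.Helper88.PP (pr Rg om Sf SS uu vv ee LA VV QQ cost)
open Pool.Agent.Helper88.RR (gg ab TB WB wb nz DB VM)
open Pool.Agent.Helper88.GM (NI XI In)
open Pool.Agent.Helper88.CG (tw pw th ic DS sg CN qE mE Wt Dt blk nb)
open Pool.Agent.Helper88.TU
open Pool.Agent.Helper33.RR (om_nonneg VM_nonneg VM_ge_one VV_nonneg ab_nonneg
  card_labels prod_labels gg_nonneg gg_succ)

/-- the label function on `P ∪ {j, j'}` -/
noncomputable def ext {P : Finset ℕ} (j j' : ℕ) (r : P → ℕ) (s t : ℕ) (i : ℕ) : ℕ :=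
  if i = j then s else if i = j' then t else if h : i ∈ P then r ⟨i, h⟩ else 0

/-- the points -/
noncomputable def PP (j j' : ℕ) (P : Finset ℕ) : Finset ℕ := insert j (insert j' P)

theorem prod_PP {M : Type*} [CommMonoid M] {P : Finset ℕ} {j j' : ℕ} (hj : j ∉ P) (hj' : j' ∉ P)
    (hjj : j ≠ j') (F : ℕ → ℕ → M) (r : P → ℕ) (s t : ℕ) :
    ∏ i : PP j j' P, F (ext j j' r s t i) i = F s j * (F t j' * ∏ i : P, F (r i) i) := by
  rw [Finset.prod_coe_sort (PP j j' P) (fun i => F (ext j j' r s t i) i)]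
  unfold PP
  rw [Finset.prod_insert (by
    rw [mem_insert]
    push Not
    exact ⟨hjj, hj⟩), Finset.prod_insert hj']
  have h1 : ext j j' r s t j = s := by simp [ext]
  have h2 : ext j j' r s t j' = t := by simp [ext, hjj.symm]
  rw [h1, h2]
  congr 2
  rw [← Finset.prod_coe_sort P]
  refine Finset.prod_congr rfl fun i _ => ?_
  have h3 : (i : ℕ) ≠ j := fun h => hj (h ▸ i.2)
  have h4 : (i : ℕ) ≠ j' := fun h => hj' (h ▸ i.2)
  simp [ext, h3, h4]

theorem nz_PP {P : Finset ℕ} {j j' : ℕ} (hj : j ∉ P) (hj' : j' ∉ P)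
    (hjj : j ≠ j') (r : P → ℕ) (s t : ℕ) (hs : s ≠ 0) (ht : t ≠ 0) :
    nz (fun i : PP j j' P => ext j j' r s t i) = nz r + 2 := by
  unfold nz
  rw [Finset.card_filter, Finset.card_filter]
  have h := prod_PP (M := Multiplicative ℕ) hj hj' hjj
    (fun a _ => Multiplicative.ofAdd (if a ≠ 0 then 1 else 0)) r s t
  have h2 : (∑ i : PP j j' P, if ext j j' r s t i ≠ 0 then 1 else 0) =
      (if s ≠ 0 then 1 else 0) + ((if t ≠ 0 then 1 else 0) + ∑ i : P, if r i ≠ 0 then 1 else 0) := h
  rw [h2, if_pos hs, if_pos ht]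
  ring

/-- the coefficient -/
noncomputable def cf (m q z j j' V i v : ℕ) : ℝ :=
  if i = j ∨ i = j' then 1 / (VM V z * (Nat.totient v : ℝ)) else if v = 0 then 1 else - ab m q z v

theorem WB_eq {m q M z y : ℕ} {P : Finset ℕ} (n : ℕ) :
    WB m q M z y P n = ∑ r ∈ TB m q M z P,
      (∏ i : P, (if r i = 0 then 1 else - ab m q z (r i))) *
        ∏ i : P, vv y z (r i) (n + (i : ℕ)) := by
  unfold WB
  refine Finset.sum_congr rfl fun r _ => ?_
  rw [Finset.prod_mul_distrib]

/-- sizes -/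
theorem sizes (c : ℝ) (hc : 0 < c) : ∃ E0 : ℕ, ∀ E : ℕ, E0 ≤ E → 
    Real.exp (-(c * E)) ≤ 1 / (E : ℝ) ^ 2 := by
  have h1 : ∀ᶠ w : ℝ in atTop, w ^ 2 * Real.exp (-w) < c ^ 2 :=
    (Real.tendsto_pow_mul_exp_neg_atTop_nhds_zero 2).eventually (gt_mem_nhds (by positivity))
  obtain ⟨w0, hw0⟩ := eventually_atTop.1 h1
  refine ⟨max ⌈w0 / c⌉₊ 1, fun E hE => ?_⟩
  have hE1 : (1 : ℝ) ≤ E := by exact_mod_cast (le_max_right _ _).trans hE
  have hE2 : w0 / c ≤ E := (Nat.le_ceil _).trans (by exact_mod_cast (le_max_left _ _).trans hE)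
  rw [div_le_iff₀ hc] at hE2
  have h2 := hw0 (c * E) (by linarith)
  have hE0 : (0 : ℝ) < E := by linarith
  rw [le_div_iff₀ (by positivity)]
  have h3 : c ^ 2 * (Real.exp (-(c * E)) * (E : ℝ) ^ 2) ≤ c ^ 2 * 1 := by
    calc c ^ 2 * (Real.exp (-(c * E)) * (E : ℝ) ^ 2) = (c * E) ^ 2 * Real.exp (-(c * E)) := by ring
      _ ≤ c ^ 2 * 1 := by linarith
  exact le_of_mul_le_mul_left h3 (by positivity)

theorem pb : StmtTG → StmtPB := by
  intro h
  obtain ⟨c, hc, E1, hTG⟩ := h
  obtain ⟨c2, hc2, E2, hVP⟩ := Pool.Agent.Helper88.CG.vp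
  obtain ⟨E4, hsz⟩ := size
  obtain ⟨cA, CA, hcA, hCA, hMA⟩ := Pool.Agent.Helper24.PP.ma
  obtain ⟨co, hco, hom⟩ := Pool.Agent.Helper74.PP.om_lower
  obtain ⟨E3, hE3⟩ := sizes c hc
  refine ⟨(64 / cA) ^ 2 + 1, by positivity, max E4 (max (max E1 E2) (max E3 64)), ?_⟩
  intro E z x y hE hSr b hb P hP hPo j hj j' hj' hjP hj'P hjj
  have hEE4 : E4 ≤ E := (le_max_left _ _).trans hE
  replace hE := (le_max_right _ _).trans hE
  obtain ⟨z1, z2, z3, z4, z5, z6, z7, z8, z9, z10, z11, z12, z13, z14⟩ := hsz E z x y hEE4 hSr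
  have hEE1 : E1 ≤ E := ((le_max_left _ _).trans (le_max_left _ _)).trans hE
  have hEE2 : E2 ≤ E := ((le_max_right _ _).trans (le_max_left _ _)).trans hE
  have hEE3 : E3 ≤ E := ((le_max_left _ _).trans (le_max_right _ _)).trans hE
  have hE64 : 64 ≤ E := ((le_max_right _ _).trans (le_max_right _ _)).trans hE
  obtain ⟨v1, v2, v3, v4, v5, v6⟩ := hVP E hEE2
  have hEr : (64 : ℝ) ≤ E := by exact_mod_cast hE64
  have hz2 : 2 ≤ z := by
    have h1 := hSr.1
    have h2 : (2 : ℝ) ≤ Real.exp E := by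
      have h3 := Real.add_one_le_exp (E : ℝ)
      linarith only [hEr, h3]
    exact_mod_cast h2.trans h1
  obtain ⟨w1, w2⟩ := v6 z hz2
  set m := mE E with hm
  set q := qE E with hq
  set M := E / 16 with hM
  set V := E / 32 with hVd
  have hq1 : 1 ≤ q := by
    rw [hq]
    exact Nat.one_le_two_pow
  have hqm : q * m ≤ M := by
    refine le_trans ?_ v2
    refine Nat.mul_le_mul_right _ ?_
    nlinarith only [hq1]
  have hV1 : 1 ≤ V := by omega
  have hV2 : 2 ≤ V := by omega
  have h2V : 2 * V ≤ M := by omega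
  have hzE : z ^ E ≤ x := hSr.2.1
  have hx1 : 1 ≤ x := le_trans (Nat.one_le_pow _ _ (by omega)) hzE
  have hzV : z ^ V ≤ x / 32 := by
    rw [Nat.le_div_iff_mul_le (by norm_num)]
    calc z ^ V * 32 = z ^ V * 2 ^ 5 := by norm_num
      _ ≤ z ^ V * z ^ 5 := Nat.mul_le_mul_left _ (Nat.pow_le_pow_left hz2 5)
      _ = z ^ (V + 5) := (pow_add _ _ _).symm
      _ ≤ z ^ E := Nat.pow_le_pow_right (by omega) (by omega)
      _ ≤ x := hzE
  have hyE : (E : ℝ) ^ 2 ≤ y := by exact_mod_cast z6
  have hEy : E ≤ y := by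
    have : (E : ℝ) ≤ y := by nlinarith only [hEr, hyE]
    exact_mod_cast this
  have hK : (M / m + 2) ^ 3 ≤ E := by
    refine le_trans ?_ v4
    calc (M / m + 2) ^ 3 ≤ (2 * (M / m + 2)) ^ 3 := Nat.pow_le_pow_left (by omega) 3
      _ ≤ (2 * (M / m + 2)) ^ 6 := Nat.pow_le_pow_right (by positivity) (by norm_num)
  have hK1 : M / m + 2 ≤ y := by
    have : M / m + 2 ≤ (M / m + 2) ^ 3 := Nat.le_self_pow (by norm_num) _
    omega
  have homz := hom y z hz2
  have hom0 : 0 ≤ om y z := om_nonneg y z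
  have hIn : In x (x / 32) x (QQ x) b := ⟨dvd_refl _, hb, by omega⟩
  have hQpos : 0 < QQ x := primorial_pos _
  have hXI : 0 ≤ XI (x / 32) x (QQ x) := Pool.Agent.Helper49.GM.XI_nonneg _ _ _
  have hPy : P.card ≤ y := by
    have := Finset.card_le_card hP
    rw [Nat.card_Icc] at this
    omega
  have hDt1 : 1 ≤ Dt E z y P := Pool.Agent.Helper85.RR.one_le_DB _ _ _ _ _ hPy
  -- the data
  set P' : Finset ℕ := PP j j' P with hP'
  have hP'y : P' ⊆ Icc 1 y := by
    rw [hP']
    unfold PP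
    exact insert_subset hj (insert_subset hj' hP)
  have hP'c : P'.card ≤ P.card + 2 := by
    rw [hP']
    unfold PP
    refine (Finset.card_insert_le _ _).trans ?_
    have := Finset.card_insert_le j' P
    omega
  have hP'o : (P'.card : ℝ) * om y z ≤ (E : ℝ) ^ 2 := by
    have h1 : (P'.card : ℝ) ≤ P.card + 2 := by exact_mod_cast hP'c
    calc (P'.card : ℝ) * om y z ≤ (P.card + 2) * om y z := mul_le_mul_of_nonneg_right h1 hom0
      _ = P.card * om y z + 2 * om y z := by ring
      _ ≤ (E : ℝ) ^ 2 / 2 + 2 * 1 := by linarith only [hPo, homz, homz.2]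
      _ ≤ (E : ℝ) ^ 2 := by nlinarith only [hEr]
  set S : Finset ℕ := SS z (z ^ V) with hS
  have hS0 : ∀ s ∈ S, s ≠ 0 := by
    intro s hs
    simp only [hS, SS, mem_filter, mem_Ico] at hs
    omega
  set Φ : (P → ℕ) × (ℕ × ℕ) → (P' → ℕ) := fun u i => ext j j' u.1 u.2.1 u.2.2 i with hΦ
  set T : Finset (P' → ℕ) := (TB m q M z P ×ˢ (S ×ˢ S)).image Φ with hT
  have hinj : Function.Injective Φ := by
    rintro ⟨r, s, t⟩ ⟨r', s', t'⟩ heq
    simp only [hΦ] at heq
    have hjm : j ∈ P' := by rw [hP']; unfold PP; exact mem_insert_self _ _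
    have hj'm : j' ∈ P' := by
      rw [hP']; unfold PP; exact mem_insert_of_mem (mem_insert_self _ _)
    have e1 := congrFun heq ⟨j, hjm⟩
    have e2 := congrFun heq ⟨j', hj'm⟩
    simp only [ext, if_true] at e1
    simp only [ext, if_true, if_neg hjj.symm] at e2
    have e3 : r = r' := by
      funext i
      have him : (i : ℕ) ∈ P' := by
        rw [hP']; unfold PP
        exact mem_insert_of_mem (mem_insert_of_mem i.2)
      have e4 := congrFun heq ⟨i, him⟩
      have h3 : (i : ℕ) ≠ j := fun h => hjP (h ▸ i.2)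
      have h4 : (i : ℕ) ≠ j' := fun h => hj'P (h ▸ i.2)
      simpa [ext, h3, h4] using e4
    rw [e1, e2, e3]
  set a : (P' → ℕ) → ℝ := fun r => ∏ i : P', cf m q z j j' V i (r i) with ha
  have haΦ : ∀ r s t, a (Φ (r, s, t)) = 1 / (VM V z * (Nat.totient s : ℝ)) *
      (1 / (VM V z * (Nat.totient t : ℝ)) *
        ∏ i : P, (if r i = 0 then 1 else - ab m q z (r i))) := by
    intro r s t
    simp only [ha, hΦ]
    have h1 := prod_PP hjP hj'P hjj (fun v i => cf m q z j j' V i v) r s t
    refine h1.trans ?_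
    congr 1
    · simp [cf]
    · congr 1
      · simp [cf]
      · refine Finset.prod_congr rfl fun i _ => ?_
        have h3 : (i : ℕ) ≠ j := fun h => hjP (h ▸ i.2)
        have h4 : (i : ℕ) ≠ j' := fun h => hj'P (h ▸ i.2)
        simp [cf, h3, h4]
  -- the function
  have hfun : ∀ n, ∑ r ∈ T, a r * ∏ i, vv y z (r i) (n + (i : ℕ)) =
      (∑ s ∈ S, 1 / (VM V z * (Nat.totient s : ℝ)) * vv y z s (n + j)) *
      (∑ t ∈ S, 1 / (VM V z * (Nat.totient t : ℝ)) * vv y z t (n + j')) *
      WB m q M z y P n := by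
    intro n
    rw [hT, Finset.sum_image (fun _ _ _ _ h => hinj h), Finset.sum_product]
    simp only [Finset.sum_product]
    rw [WB_eq, Finset.mul_sum]
    refine Finset.sum_congr rfl fun r _ => ?_
    rw [Finset.sum_mul_sum, Finset.sum_mul]
    refine Finset.sum_congr rfl fun s _ => ?_
    rw [Finset.sum_mul]
    refine Finset.sum_congr rfl fun t _ => ?_
    rw [haΦ]
    have h1 := prod_PP hjP hj'P hjj (fun v i => vv y z v (n + i)) r s t
    simp only [hΦ]
    rw [h1]
    ring
  have hVM1 : 1 ≤ VM V z := VM_ge_one hV1 hz2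
  have hone : ∀ k : ℕ, (∀ s ∈ S, vv y z s k = 1) →
      ∑ s ∈ S, 1 / (VM V z * (Nat.totient s : ℝ)) * vv y z s k = 1 := by
    intro k hk
    have h1 : ∀ s ∈ S, 1 / (VM V z * (Nat.totient s : ℝ)) * vv y z s k =
        1 / VM V z * (1 / (Nat.totient s : ℝ)) := by
      intro s hs
      rw [hk s hs, mul_one, one_div_mul_one_div]
    rw [Finset.sum_congr rfl h1, ← Finset.mul_sum]
    show 1 / VM V z * VM V z = 1
    exact one_div_mul_cancel (by linarith only [hVM1])
  -- the second moment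
  set F : Finset P' := univ.filter (fun i : P' => (i : ℕ) = j ∨ (i : ℕ) = j') with hF
  have hFc2 : F.card = 2 := by
    rw [← Finset.card_image_of_injective F (Subtype.val_injective)]
    have : F.image (fun i : P' => (i : ℕ)) = {j, j'} := by
      ext i
      rw [mem_image, mem_insert, mem_singleton]
      constructor
      · rintro ⟨i', hi', rfl⟩
        rw [hF, mem_filter] at hi'
        exact hi'.2
      · intro hi
        have him : i ∈ P' := by
          rw [hP']
          unfold PP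
          rcases hi with rfl | rfl
          · exact mem_insert_self _ _
          · exact mem_insert_of_mem (mem_insert_self _ _)
        exact ⟨⟨i, him⟩, by rw [hF, mem_filter]; exact ⟨mem_univ _, hi⟩, rfl⟩
    rw [show (fun i : P' => (i : ℕ)) = Subtype.val from rfl] at this
    rw [this]
    exact Finset.card_pair hjj
  have hFc : F.card ≤ 2 := hFc2.le
  have hmemT : ∀ r' ∈ T, ∃ r s t, r ∈ TB m q M z P ∧ s ∈ S ∧ t ∈ S ∧ r' = Φ (r, s, t) := by
    intro r' hr'
    rw [hT, mem_image] at hr'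
    obtain ⟨⟨r, s, t⟩, hrst, rfl⟩ := hr'
    rw [mem_product, mem_product] at hrst
    exact ⟨r, s, t, hrst.1, hrst.2.1, hrst.2.2, rfl⟩
  have hTG' := hTG E z x y hEE1 hSr (x / 32) x (QQ x) b hIn m q (M / m + 2) V v1 hqm w1 hK
    le_rfl (by omega) P' hP'y hP'o T a F ∅ hFc (by simp) (by simp) ?_ ?_ (by simp) ?_ ?_ ?_
  · -- conclusion
    have hmain : ∑ r ∈ T, a r ^ 2 *
        (gg y z (nz r) * ∏ i, (if r i = 0 then 1 else (Nat.totient (r i) : ℝ))) ≤
        om y z ^ 2 * Dt E z y P / VM V z ^ 2 := by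
      rw [hT, Finset.sum_image (fun _ _ _ _ h => hinj h), Finset.sum_product]
      simp only [Finset.sum_product]
      have hVM0 : VM V z ≠ 0 := by linarith only [hVM1]
      have hterm : ∀ r ∈ TB m q M z P, ∀ s ∈ S, ∀ t ∈ S, a (Φ (r, s, t)) ^ 2 *
          (gg y z (nz (Φ (r, s, t))) * ∏ i, (if Φ (r, s, t) i = 0 then 1 else
            (Nat.totient (Φ (r, s, t) i) : ℝ))) =
          (gg y z (nz r + 2) * ∏ i : P,
            (if r i = 0 then 1 else ab m q z (r i) ^ 2 * (Nat.totient (r i) : ℝ))) *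
          ((1 / VM V z ^ 2 * (1 / (Nat.totient s : ℝ))) *
            (1 / VM V z ^ 2 * (1 / (Nat.totient t : ℝ)))) := by
        intro r hr s hs t ht
        have hφ : ∀ v ∈ S, (Nat.totient v : ℝ) ≠ 0 := by
          intro v hv
          have : 0 < Nat.totient v := Nat.totient_pos.mpr (Nat.pos_of_ne_zero (hS0 v hv))
          exact_mod_cast this.ne'
        have h1 := nz_PP hjP hj'P hjj r s t (hS0 s hs) (hS0 t ht)
        have h2 := prod_PP hjP hj'P hjj
          (fun v _ => if v = 0 then (1 : ℝ) else (Nat.totient v : ℝ)) r s t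
        rw [haΦ]
        simp only [hΦ]
        rw [h1, h2, if_neg (hS0 s hs), if_neg (hS0 t ht)]
        have e3 : (∏ i : P, (if r i = 0 then (1 : ℝ) else - ab m q z (r i))) ^ 2 *
            ∏ i : P, (if r i = 0 then (1 : ℝ) else (Nat.totient (r i) : ℝ))
            = ∏ i : P, (if r i = 0 then (1 : ℝ) else
              ab m q z (r i) ^ 2 * (Nat.totient (r i) : ℝ)) := by
          rw [← Finset.prod_pow, ← Finset.prod_mul_distrib]
          refine Finset.prod_congr rfl fun i _ => ?_
          split_ifs <;> ring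
        rw [← e3]
        have f1 := hφ s hs
        have f2 := hφ t ht
        field_simp
      rw [Finset.sum_congr rfl fun r hr => Finset.sum_congr rfl fun s hs =>
        Finset.sum_congr rfl fun t ht => hterm r hr s hs t ht]
      have hS1 : ∑ s ∈ S, 1 / VM V z ^ 2 * (1 / (Nat.totient s : ℝ)) = 1 / VM V z := by
        rw [← Finset.mul_sum]
        show 1 / VM V z ^ 2 * VM V z = _
        field_simp
      have hsum : ∀ r : P → ℕ, ∑ s ∈ S, ∑ t ∈ S, (gg y z (nz r + 2) * ∏ i : P,
            (if r i = 0 then 1 else ab m q z (r i) ^ 2 * (Nat.totient (r i) : ℝ))) *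
          ((1 / VM V z ^ 2 * (1 / (Nat.totient s : ℝ))) *
            (1 / VM V z ^ 2 * (1 / (Nat.totient t : ℝ)))) =
          (gg y z (nz r + 2) * ∏ i : P,
            (if r i = 0 then 1 else ab m q z (r i) ^ 2 * (Nat.totient (r i) : ℝ))) /
            VM V z ^ 2 := by
        intro r
        have hA : ∀ (A : ℝ) (f : ℕ → ℝ), ∑ s ∈ S, ∑ t ∈ S, A * (f s * f t) =
            A * ((∑ s ∈ S, f s) * ∑ s ∈ S, f s) := by
          intro A f
          rw [Finset.sum_mul_sum, Finset.mul_sum]
          exact Finset.sum_congr rfl fun s _ => (Finset.mul_sum _ _ _).symm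
        rw [hA _ (fun s => 1 / VM V z ^ 2 * (1 / (Nat.totient s : ℝ))), hS1]
        field_simp
      rw [Finset.sum_congr rfl fun r _ => hsum r, ← Finset.sum_div]
      refine div_le_div_of_nonneg_right ?_ (by positivity)
      unfold Dt DB
      rw [Finset.mul_sum]
      refine Finset.sum_le_sum fun r hr => ?_
      unfold wb
      have h2 := card_labels v1 hz2 hr
      have g1 : gg y z (nz r + 1 + 1) ≤ om y z * gg y z (nz r + 1) := gg_succ (by omega)
      have g2 : gg y z (nz r + 1) ≤ om y z * gg y z (nz r) := gg_succ (by omega)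
      have g3 : gg y z (nz r + 2) ≤ om y z ^ 2 * gg y z (nz r) := by
        calc gg y z (nz r + 2) ≤ om y z * gg y z (nz r + 1) := g1
          _ ≤ om y z * (om y z * gg y z (nz r)) := mul_le_mul_of_nonneg_left g2 hom0
          _ = _ := by ring
      rw [← mul_assoc]
      refine mul_le_mul_of_nonneg_right g3 (Finset.prod_nonneg fun i _ => ?_)
      split_ifs <;> positivity
    have hstep : ∑ n ∈ (NI (x / 32) x (QQ x) b).filter (fun n => (n + j).Prime ∧ (n + j').Prime),
        Wt E z y P n ^ 2 ≤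
        ∑ n ∈ NI (x / 32) x (QQ x) b, (∑ r ∈ T, a r * ∏ i, vv y z (r i) (n + (i : ℕ))) ^ 2 := by
      rw [Finset.sum_filter]
      refine Finset.sum_le_sum fun n hn => ?_
      split_ifs with hpr
      · have hnx : x / 32 < n := by
          unfold NI at hn
          rw [mem_filter, mem_Ioc] at hn
          exact hn.1.1
        have h1 := hone (n + j) fun s hs => Pool.Agent.Helper59.RR.vv_one hV2 hz2 hpr.1
          (n := n) (by omega) (by omega) hs
        have h2 := hone (n + j') fun s hs => Pool.Agent.Helper59.RR.vv_one hV2 hz2 hpr.2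
          (n := n) (by omega) (by omega) hs
        rw [hfun, h1, h2, one_mul, one_mul]
        exact le_rfl
      · exact sq_nonneg _
    have herr : Real.exp (-(c * E)) * om y z ^ 2 ≤ (om y z / E) ^ 2 := by
      calc Real.exp (-(c * E)) * om y z ^ 2 ≤ 1 / (E : ℝ) ^ 2 * om y z ^ 2 :=
            mul_le_mul_of_nonneg_right (hE3 E hEE3) (by positivity)
        _ = (om y z / E) ^ 2 := by ring
    rw [hFc2, Finset.card_empty, Nat.add_zero] at hTG'
    have hVMl : cA * E / 64 ≤ VM V z := by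
      have h1 := (hMA z V hz2 hV1).1
      have h3 : (E : ℝ) / 64 ≤ V := by
        have : E ≤ 64 * V := by omega
        have h4 : (E : ℝ) ≤ 64 * V := by exact_mod_cast this
        linarith only [h4]
      calc cA * E / 64 = cA * (E / 64) := by ring
        _ ≤ cA * V := mul_le_mul_of_nonneg_left h3 hcA.le
        _ ≤ _ := h1
    have h1 := (abs_le.mp hTG').2
    have hE0 : (0 : ℝ) < E := by linarith only [hEr]
    have h3 : om y z ^ 2 * Dt E z y P / VM V z ^ 2 ≤ (64 / cA) ^ 2 * (Dt E z y P * (om y z / E) ^ 2) := by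
      calc om y z ^ 2 * Dt E z y P / VM V z ^ 2 ≤ om y z ^ 2 * Dt E z y P / (cA * E / 64) ^ 2 := by
            gcongr
        _ = _ := by
            field_simp
    have h4 := mul_le_mul_of_nonneg_left (hmain.trans h3) hXI
    have h5 : Real.exp (-(c * E)) * om y z ^ 2 * XI (x / 32) x (QQ x) ≤
        XI (x / 32) x (QQ x) * Dt E z y P * (om y z / E) ^ 2 := by
      calc Real.exp (-(c * E)) * om y z ^ 2 * XI (x / 32) x (QQ x) ≤
            (om y z / E) ^ 2 * XI (x / 32) x (QQ x) := mul_le_mul_of_nonneg_right herr hXI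
        _ = XI (x / 32) x (QQ x) * 1 * (om y z / E) ^ 2 := by ring
        _ ≤ _ := by gcongr
    calc _ ≤ _ := hstep
      _ ≤ XI (x / 32) x (QQ x) * ∑ r ∈ T, a r ^ 2 *
          (gg y z (nz r) * ∏ i, (if r i = 0 then 1 else (Nat.totient (r i) : ℝ))) +
          Real.exp (-(c * E)) * om y z ^ 2 * XI (x / 32) x (QQ x) := by linarith only [h1]
      _ ≤ XI (x / 32) x (QQ x) * ((64 / cA) ^ 2 * (Dt E z y P * (om y z / E) ^ 2)) +
          XI (x / 32) x (QQ x) * Dt E z y P * (om y z / E) ^ 2 := add_le_add h4 h5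
      _ = _ := by ring
  · intro r' hr' i hi _
    obtain ⟨r, s, t, hr, hs, ht, rfl⟩ := hmemT r' hr'
    rw [hF, mem_filter] at hi
    push Not at hi
    have hi2 := hi (mem_univ _)
    simp only [hΦ, ext, if_neg hi2.1, if_neg hi2.2]
    split_ifs with hiP
    · have h1 := hr
      simp only [TB, mem_filter, Fintype.mem_piFinset, mem_insert] at h1
      exact h1.1 ⟨i, hiP⟩
    · exact Or.inl rfl
  · intro r' hr' i hi
    obtain ⟨r, s, t, hr, hs, ht, rfl⟩ := hmemT r' hr'
    rw [hF, mem_filter] at hi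
    simp only [hΦ, ext]
    split_ifs with e1 e2
    · exact hs
    · exact ht
    · exact absurd hi.2 (by tauto)
    · exact absurd hi.2 (by tauto)
  · intro r' hr'
    obtain ⟨r, s, t, hr, hs, ht, rfl⟩ := hmemT r' hr'
    have h1 := nz_PP hjP hj'P hjj r s t (hS0 s hs) (hS0 t ht)
    have h2 := card_labels v1 hz2 hr
    simp only [hΦ]
    rw [h1]
    omega
  · intro r' hr'
    obtain ⟨r, s, t, hr, hs, ht, rfl⟩ := hmemT r' hr'
    have h1 := prod_PP hjP hj'P hjj (fun v _ => max 1 v) r s t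
    have h2 := prod_labels hz2 hr
    simp only [hΦ]
    rw [h1]
    have hs' : max 1 s ≤ z ^ V := by
      have := hs
      simp only [hS, SS, mem_filter, mem_Ico] at this
      omega
    have ht' : max 1 t ≤ z ^ V := by
      have := ht
      simp only [hS, SS, mem_filter, mem_Ico] at this
      omega
    calc max 1 s * (max 1 t * ∏ i, max 1 (r i)) ≤ z ^ V * (z ^ V * z ^ M) :=
          Nat.mul_le_mul hs' (Nat.mul_le_mul ht' h2)
      _ = z ^ (V + V + M) := by ring
      _ ≤ z ^ (2 * (E / 16)) := Nat.pow_le_pow_right (by omega) (by omega)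
  · intro r' hr'
    simp only [ha]
    rw [Finset.abs_prod]
    refine Finset.prod_le_prod (fun i _ => abs_nonneg _) fun i _ => ?_
    by_cases hi : i ∈ F
    · rw [if_pos hi]
      rw [hF, mem_filter] at hi
      unfold cf
      rw [if_pos hi.2, abs_of_nonneg (by have := VM_nonneg V z; positivity)]
    · rw [if_neg hi, if_neg (by simp)]
      have hi2 : ¬ ((i : ℕ) = j ∨ (i : ℕ) = j') := fun h => hi (by rw [hF, mem_filter]; exact ⟨mem_univ _, h⟩)
      unfold cf
      rw [if_neg hi2]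
      split_ifs
      · simp
      · rw [abs_neg, abs_of_nonneg (ab_nonneg _ _ _ _)]

end Pool.Agent.Helper46.TU
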